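import Mathlib

/-!
# Countably compact groups: the greedy selection lemma

Blocks of natural numbers of quickly growing size, and the selection of linearly independent
members of countably many linearly independent sequences of vectors.
-/

namespace Pool.Agent.L5helper51.CCG

open Set Filter

/-- The `n`-th block of natural numbers. -/
def Ib (n : ℕ) : Finset ℕ := Finset.Ico (n + 1).factorial (n + 2).factorial

lemma card_Ib (n : ℕ) : (Ib n).card = (n + 1) * (n + 1).factorial := by
  unfold Ib
  rw [Nat.card_Ico, Nat.factorial_succ (n + 1)]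
  have : (n + 1 + 1) * (n + 1).factorial = (n + 1) * (n + 1).factorial + (n + 1).factorial := by ring
  omega

lemma Ib_unique {m n n' : ℕ} (h : m ∈ Ib n) (h' : m ∈ Ib n') : n = n' := by
  unfold Ib at h h'
  rw [Finset.mem_Ico] at h h'
  by_contra hne
  rcases lt_or_gt_of_ne hne with hlt | hlt
  · have : (n + 2).factorial ≤ (n' + 1).factorial := Nat.factorial_le (by omega)
    omega
  · have : (n' + 2).factorial ≤ (n + 1).factorial := Nat.factorial_le (by omega)
    omega

section Greedy

variable {k V : Type*} [Field k] [AddCommGroup V] [Module k V] (w : ℕ → V)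

/-- The span of the vectors before `m`. -/
def Wsp (k : Type*) {V : Type*} [Field k] [AddCommGroup V] [Module k V] (w : ℕ → V) (m : ℕ) :
    Submodule k V := Submodule.span k (w '' Set.Iio m)

/-- The indices at which the span grows. -/
def Inc (k : Type*) {V : Type*} [Field k] [AddCommGroup V] [Module k V] (w : ℕ → V) : Set ℕ :=
  {m | w m ∉ Wsp k w m}

instance (m : ℕ) : Module.Finite k (Wsp k w m) := by
  unfold Wsp
  exact Module.Finite.span_of_finite k ((Set.finite_Iio m).image w)

lemma linearIndepOn_Inc : LinearIndepOn k w (Inc k w) := by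
  have hN : ∀ N : ℕ, LinearIndepOn k w (Inc k w ∩ Set.Iio N) := by
    intro N
    induction N with
    | zero => simp
    | succ N ih =>
      by_cases hN : N ∈ Inc k w
      · have : Inc k w ∩ Set.Iio (N + 1) = insert N (Inc k w ∩ Set.Iio N) := by
          ext m
          simp only [Set.mem_inter_iff, Set.mem_Iio, Set.mem_insert_iff]
          constructor
          · rintro ⟨h1, h2⟩
            rcases Nat.lt_succ_iff_lt_or_eq.mp h2 with h | h
            · exact Or.inr ⟨h1, h⟩
            · exact Or.inl h
          · rintro (h | ⟨h1, h2⟩)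
            · subst h; exact ⟨hN, Nat.lt_succ_self _⟩
            · exact ⟨h1, Nat.lt_succ_of_lt h2⟩
        rw [this]
        refine ih.insert fun h => hN ?_
        exact Submodule.span_mono (Set.image_mono Set.inter_subset_right) h
      · have : Inc k w ∩ Set.Iio (N + 1) = Inc k w ∩ Set.Iio N := by
          ext m
          simp only [Set.mem_inter_iff, Set.mem_Iio]
          constructor
          · rintro ⟨h1, h2⟩
            rcases Nat.lt_succ_iff_lt_or_eq.mp h2 with h | h
            · exact ⟨h1, h⟩
            · exact absurd (h ▸ h1) hN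
          · rintro ⟨h1, h2⟩
            exact ⟨h1, Nat.lt_succ_of_lt h2⟩
        rw [this]; exact ih
  have hU : Inc k w = ⋃ N : ℕ, (Inc k w ∩ Set.Iio N) := by
    ext m
    simp only [Set.mem_iUnion, Set.mem_inter_iff, Set.mem_Iio]
    exact ⟨fun h => ⟨m + 1, h, Nat.lt_succ_self m⟩, fun ⟨_, h, _⟩ => h⟩
  rw [hU]
  refine linearIndepOn_iUnion_of_directed ?_ hN
  refine Monotone.directed_le ?_
  intro a b hab
  exact Set.inter_subset_inter_right _ (Set.Iio_subset_Iio hab)

open Classical in
lemma finrank_Wsp_le (a b : ℕ) (hab : a ≤ b) :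
    Module.finrank k (Wsp k w b) ≤
      Module.finrank k (Wsp k w a) + ((Finset.Ico a b).filter (· ∈ Inc k w)).card := by
  induction b, hab using Nat.le_induction with
  | base => simp
  | succ b hab ih =>
    have hsup : Wsp k w (b + 1) = Wsp k w b ⊔ Submodule.span k {w b} := by
      unfold Wsp
      rw [← Submodule.span_union]
      congr 1
      ext v
      simp only [Set.mem_image, Set.mem_Iio, Set.mem_union, Set.mem_singleton_iff]
      constructor
      · rintro ⟨m, hm, rfl⟩
        rcases Nat.lt_succ_iff_lt_or_eq.mp hm with h | h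
        · exact Or.inl ⟨m, h, rfl⟩
        · exact Or.inr (by rw [h])
      · rintro (⟨m, hm, rfl⟩ | rfl)
        · exact ⟨m, Nat.lt_succ_of_lt hm, rfl⟩
        · exact ⟨b, Nat.lt_succ_self b, rfl⟩
    by_cases hb : b ∈ Inc k w
    · have h1 : Module.finrank k (Wsp k w (b + 1)) ≤ Module.finrank k (Wsp k w b) + 1 := by
        rw [hsup]
        have := Submodule.finrank_add_le_finrank_add_finrank (Wsp k w b) (Submodule.span k {w b})
        have h2 : Module.finrank k (Submodule.span k {w b}) ≤ 1 := by
          have := finrank_span_le_card (R := k) ({w b} : Set V)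
          simpa using this
        omega
      have h3 : (Finset.Ico a (b + 1)).filter (· ∈ Inc k w) =
          insert b ((Finset.Ico a b).filter (· ∈ Inc k w)) := by
        ext m
        simp only [Finset.mem_filter, Finset.mem_Ico, Finset.mem_insert]
        constructor
        · rintro ⟨⟨h1, h2⟩, h3⟩
          rcases Nat.lt_succ_iff_lt_or_eq.mp h2 with h | h
          · exact Or.inr ⟨⟨h1, h⟩, h3⟩
          · exact Or.inl h
        · rintro (h | ⟨⟨h1, h2⟩, h3⟩)
          · subst h; exact ⟨⟨hab, Nat.lt_succ_self _⟩, hb⟩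
          · exact ⟨⟨h1, Nat.lt_succ_of_lt h2⟩, h3⟩
      rw [h3, Finset.card_insert_of_notMem (by simp)]
      omega
    · have h1 : Wsp k w (b + 1) = Wsp k w b := by
        rw [hsup, sup_eq_left, Submodule.span_singleton_le_iff_mem]
        by_contra h
        exact hb h
      rw [h1]
      refine ih.trans ?_
      gcongr
      exact Nat.le_succ b

lemma finrank_Wsp_le_self (a : ℕ) : Module.finrank k (Wsp k w a) ≤ a := by
  have h := finrank_Wsp_le (k := k) w 0 a (Nat.zero_le a)
  have h0 : Module.finrank k (Wsp k w 0) = 0 := by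
    have : Wsp k w 0 = ⊥ := by
      unfold Wsp
      simp
    rw [this]
    simp
  classical
  have h2 : ((Finset.Ico 0 a).filter (· ∈ Inc k w)).card ≤ a := by
    refine (Finset.card_filter_le _ _).trans ?_
    simp
  rw [h0] at h
  refine h.trans ?_
  rw [zero_add]
  convert h2

open Classical in
lemma card_filter_not_Inc (a b : ℕ) (hab : a ≤ b) (f : ℕ → V) (hf : LinearIndependent k f)
    (hw : ∀ m ∈ Finset.Ico a b, w m = f m) :
    ((Finset.Ico a b).filter (· ∉ Inc k w)).card ≤ a := by
  have h1 : (Finset.Ico a b).card ≤ Module.finrank k (Wsp k w b) := by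
    have hli : LinearIndependent k (fun m : Finset.Ico a b => f m) :=
      hf.comp (fun m : Finset.Ico a b => (m : ℕ)) Subtype.val_injective
    have hmem : ∀ m : Finset.Ico a b, f m ∈ Wsp k w b := by
      intro m
      rw [← hw m m.2]
      exact Submodule.subset_span ⟨m, (Finset.mem_Ico.mp m.2).2, rfl⟩
    have hli2 : LinearIndependent k (fun m : Finset.Ico a b => (⟨f m, hmem m⟩ : Wsp k w b)) := by
      refine LinearIndependent.of_comp (Wsp k w b).subtype ?_
      exact hli
    have := hli2.fintype_card_le_finrank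
    simpa using this
  have h2 := finrank_Wsp_le (k := k) w a b hab
  have h3 := finrank_Wsp_le_self (k := k) w a
  have h4 := Finset.card_filter_add_card_filter_not (s := Finset.Ico a b) (· ∈ Inc k w)
  omega

end Greedy

section Select

variable {k V ι : Type*} [Field k] [AddCommGroup V] [Module k V] [Countable ι]

theorem exists_select (f : ι → ℕ → V) (hf : ∀ i, LinearIndependent k (f i)) (A : ι → Set ℕ)
    (hA : ∀ i j, i ≠ j → (A i ∩ A j).Finite) :
    ∃ U : ι → Set ℕ,
      (∀ i, ∃ K : ℕ, ∀ n ∈ A i, K ≤ n →
        ((Ib n : Set ℕ) \ U i).ncard ≤ K * (n + 1).factorial) ∧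
      LinearIndependent k (fun s : Σ i, U i => f s.1 s.2) := by
  classical
  obtain ⟨r, hr⟩ := exists_injective_nat ι
  -- thresholds
  have hbd : ∀ i, ∃ K : ℕ, ∀ j, r j < r i → ∀ n ∈ A i ∩ A j, n < K := by
    intro i
    have hfin : (⋃ j ∈ {j | r j < r i}, (A i ∩ A j)).Finite := by
      refine Set.Finite.biUnion ?_ ?_
      · exact Set.Finite.of_finite_image ((Set.finite_Iio (r i)).subset (by
          rintro _ ⟨j, hj, rfl⟩; exact hj)) hr.injOn
      · intro j hj
        refine hA i j ?_
        rintro rfl
        exact lt_irrefl _ (show r i < r i from hj)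
    obtain ⟨K, hK⟩ := hfin.bddAbove
    refine ⟨K + 1, fun j hj n hn => Nat.lt_succ_of_le (hK ?_)⟩
    exact Set.mem_biUnion (show j ∈ {j | r j < r i} from hj) hn
  choose κ hκ using hbd
  have huniq : ∀ i j n, n ∈ A i → κ i ≤ n → n ∈ A j → κ j ≤ n → i = j := by
    intro i j n h1 h2 h3 h4
    by_contra hne
    rcases lt_or_gt_of_ne (fun h => hne (hr h)) with h | h
    · exact absurd (hκ j i h n ⟨h3, h1⟩) (not_lt.mpr h4)
    · exact absurd (hκ i j h n ⟨h1, h3⟩) (not_lt.mpr h2)
  let P : ι → ℕ → Prop := fun i m => ∃ n, m ∈ Ib n ∧ n ∈ A i ∧ κ i ≤ n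
  have hPu : ∀ i j m, P i m → P j m → i = j := by
    rintro i j m ⟨n, h1, h2, h3⟩ ⟨n', h1', h2', h3'⟩
    have : n = n' := Ib_unique h1 h1'
    subst this
    exact huniq i j n h2 h3 h2' h3'
  let w : ℕ → V := fun m => if h : ∃ i, P i m then f h.choose m else 0
  have hw : ∀ i m, P i m → w m = f i m := by
    intro i m h
    have hex : ∃ i, P i m := ⟨i, h⟩
    have : hex.choose = i := hPu _ _ m hex.choose_spec h
    simp only [w, dif_pos hex, this]
  refine ⟨fun i => {m | m ∈ Inc k w ∧ P i m}, ?_, ?_⟩
  · intro i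
    refine ⟨κ i + 1, fun n hn hk => ?_⟩
    have h1 : ((Ib n : Set ℕ) \ {m | m ∈ Inc k w ∧ P i m}).ncard ≤ (n + 1).factorial := by
      have hsub : ((Ib n : Set ℕ) \ {m | m ∈ Inc k w ∧ P i m}) ⊆
          (((Finset.Ico (n + 1).factorial (n + 2).factorial).filter (· ∉ Inc k w) : Finset ℕ) :
            Set ℕ) := by
        rintro m ⟨hm, hm2⟩
        rw [Finset.mem_coe, Finset.mem_filter]
        exact ⟨hm, fun h => hm2 ⟨h, n, hm, hn, by omega⟩⟩
      refine (Set.ncard_le_ncard hsub (Finset.finite_toSet _)).trans ?_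
      rw [Set.ncard_coe_finset]
      refine card_filter_not_Inc (k := k) w _ _ (Nat.factorial_le (by omega)) (f i) (hf i) ?_
      intro m hm
      exact hw i m ⟨n, hm, hn, by omega⟩
    have h2 : (n + 1).factorial ≤ (κ i + 1) * (n + 1).factorial :=
      Nat.le_mul_of_pos_left _ (Nat.succ_pos _)
    exact h1.trans h2
  · let φ : (Σ i, ({m | m ∈ Inc k w ∧ P i m} : Set ℕ)) → Inc k w := fun s => ⟨s.2.1, s.2.2.1⟩
    have hφ : Function.Injective φ := by
      rintro ⟨i, m, hm⟩ ⟨j, m', hm'⟩ h
      have h' : m = m' := congrArg Subtype.val h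
      subst h'
      have : i = j := hPu _ _ m hm.2 hm'.2
      subst this
      rfl
    have h := (linearIndepOn_Inc (k := k) w)
    have h2 := LinearIndependent.comp h φ hφ
    convert h2 using 1
    funext s
    exact (hw s.1 s.2.1 s.2.2.2).symm

end Select

end Pool.Agent.L5helper51.CCG
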