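import Mathlib
import Pool.Agent.L5helper51.CCGreedy

/-!
# Countably compact groups: ultrafilters along an almost disjoint family, and limits
-/

namespace Pool.Agent.L5helper51.CCG

open Set Filter

/-- Sets that miss few points of almost all blocks indexed by the members of `A` belong to a
suitable ultrafilter. -/
theorem exists_ultra (A : Set ℕ) (hA : A.Infinite) :
    ∃ p : Ultrafilter ℕ, ∀ U : Set ℕ,
      (∃ K : ℕ, ∀ n ∈ A, K ≤ n → ((Ib n : Set ℕ) \ U).ncard ≤ K * (n + 1).factorial) → U ∈ p := by
  let F : Filter ℕ :=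
    { sets := {U | ∃ K : ℕ, ∀ n ∈ A, K ≤ n →
        ((Ib n : Set ℕ) \ U).ncard ≤ K * (n + 1).factorial}
      univ_sets := ⟨0, fun n _ _ => by simp⟩
      sets_of_superset := by
        rintro U W ⟨K, hK⟩ hUW
        refine ⟨K, fun n hn hk => le_trans (Set.ncard_le_ncard ?_ ?_) (hK n hn hk)⟩
        · exact Set.sdiff_subset_sdiff_right hUW
        · exact (Finset.finite_toSet _).subset Set.sdiff_subset
      inter_sets := by
        rintro U W ⟨K, hK⟩ ⟨L, hL⟩
        refine ⟨K + L, fun n hn hk => ?_⟩
        have h1 := hK n hn (by omega)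
        have h2 := hL n hn (by omega)
        have h3 : ((Ib n : Set ℕ) \ (U ∩ W)) = ((Ib n : Set ℕ) \ U) ∪ ((Ib n : Set ℕ) \ W) :=
          Set.sdiff_inter
        rw [h3, add_mul]
        exact (Set.ncard_union_le _ _).trans (add_le_add h1 h2) }
  have hF : F.NeBot := by
    rw [Filter.neBot_iff, Ne, ← Filter.empty_mem_iff_bot]
    rintro ⟨K, hK⟩
    obtain ⟨n, hn, hKn⟩ := hA.exists_gt K
    have h := hK n hn hKn.le
    have h1 : ((Ib n : Set ℕ) \ ∅).ncard = (n + 1) * (n + 1).factorial := by
      rw [← card_Ib, Set.sdiff_empty, Set.ncard_coe_finset]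
    rw [h1] at h
    have h2 : K * (n + 1).factorial < (n + 1) * (n + 1).factorial :=
      Nat.mul_lt_mul_of_pos_right (by omega) (Nat.factorial_pos _)
    omega
  refine ⟨@Ultrafilter.of _ F hF, fun U hU => ?_⟩
  exact (@Ultrafilter.of_le _ F hF) hU

/-- An almost disjoint family indexed by the functions from the natural numbers to two values. -/
def adSet (x : ℕ → Bool) : Set ℕ := Set.range fun m : ℕ => Encodable.encode ((List.range m).map x)

lemma adSet_infinite (x : ℕ → Bool) : (adSet x).Infinite := by
  refine Set.infinite_range_of_injective fun m m' h => ?_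
  have h1 := Encodable.encode_injective h
  have h2 := congrArg List.length h1
  simpa using h2

lemma adSet_inter (x y : ℕ → Bool) (h : x ≠ y) : (adSet x ∩ adSet y).Finite := by
  obtain ⟨j, hj⟩ : ∃ j, x j ≠ y j := by
    by_contra hcon
    push Not at hcon
    exact h (funext hcon)
  refine ((Set.finite_Iic j).image fun m => Encodable.encode ((List.range m).map x)).subset ?_
  rintro _ ⟨⟨m, rfl⟩, ⟨m', hm'⟩⟩
  refine ⟨m, ?_, rfl⟩
  rw [Set.mem_Iic]
  by_contra hlt
  rw [not_le] at hlt
  have h1 : (List.range m').map y = (List.range m).map x := Encodable.encode_injective hm'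
  have h2 : m' = m := by simpa using congrArg List.length h1
  subst h2
  have h3 : ((List.range m').map y)[j]? = ((List.range m').map x)[j]? := by rw [h1]
  rw [List.getElem?_map, List.getElem?_map, List.getElem?_range hlt] at h3
  simp only [Option.map_some, Option.some.injEq] at h3
  exact hj h3.symm

/-- The limit of a function with finitely many values along an ultrafilter. -/
noncomputable def plim {k : Type*} [Finite k] (p : Ultrafilter ℕ) (g : ℕ → k) : k :=
  (Ultrafilter.eq_pure_of_finite (p.map g)).choose

lemma plim_spec {k : Type*} [Finite k] (p : Ultrafilter ℕ) (g : ℕ → k) :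
    {n | g n = plim p g} ∈ p := by
  have h := (Ultrafilter.eq_pure_of_finite (p.map g)).choose_spec
  have h1 : {c | c = plim p g} ∈ p.map g := by
    rw [h]
    exact rfl
  exact h1

lemma plim_eq {k : Type*} [Finite k] (p : Ultrafilter ℕ) (g : ℕ → k) (c : k)
    (h : {n | g n = c} ∈ p) : plim p g = c := by
  have h1 := Filter.inter_mem (plim_spec p g) h
  obtain ⟨n, hn⟩ := Ultrafilter.nonempty_of_mem h1
  exact hn.1.symm.trans hn.2

end Pool.Agent.L5helper51.CCG
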