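import Mathlib
import Pool.Agent.L5helper51.CCUltra

/-!
# Countably compact groups: the vector space of formal limits and its functionals
-/

namespace Pool.Agent.L5helper51.CCG

open Set Filter Cardinal

/-- The shapes of formal limits: a basis vector, or the coefficients of a sequence of finite
linear combinations. -/
abbrev Shape (k : Type) [Field k] : Type := ℕ ⊕ (ℕ → ℕ →₀ k)

/-- The branches at a shape. -/
def Br (k : Type) [Field k] : Shape k → Type
  | .inl _ => Empty
  | .inr _ => ℕ × ℕ

/-- The formal limits. -/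
abbrev Idx (k : Type) [Field k] : Type := WType (Br k)

/-- The vector space with the formal limits as a basis. -/
abbrev Vec (k : Type) [Field k] : Type := Idx k →₀ k

section

variable {k : Type} [Field k]

/-- The formal limit of a sequence of vectors. -/
def lim (c : ℕ → ℕ →₀ k) (g : ℕ × ℕ → Idx k) : Idx k := WType.mk (.inr c) g

/-- The initial basis vectors. -/
def base (n : ℕ) : Idx k := WType.mk (.inl n) Empty.elim

/-- The sequence of vectors coded by a formal limit. -/
noncomputable def seqOf (c : ℕ → ℕ →₀ k) (g : ℕ × ℕ → Idx k) (n : ℕ) : Vec k :=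
  Finsupp.mapDomain (fun i => g (n, i)) (c n)

lemma exists_code_one (v : Vec k) : ∃ (c : ℕ →₀ k) (g : ℕ → Idx k), Finsupp.mapDomain g c = v := by
  classical
  have hs : (insert (base 0) (v.support : Set (Idx k))).Countable :=
    (v.support.countable_toSet).insert _
  obtain ⟨g, hg⟩ := hs.exists_eq_range (Set.insert_nonempty _ _)
  have hsur : ∀ b ∈ v.support, ∃ n, g n = b := by
    intro b hb
    have : b ∈ Set.range g := by
      rw [← hg]
      exact Or.inr hb
    exact this
  let h : Idx k → ℕ := fun b => if hb : b ∈ v.support then (hsur b hb).choose else 0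
  refine ⟨Finsupp.mapDomain h v, g, ?_⟩
  rw [← Finsupp.mapDomain_comp]
  conv_rhs => rw [← Finsupp.mapDomain_id (v := v)]
  refine Finsupp.mapDomain_congr fun b hb => ?_
  simp only [Function.comp_apply, id_eq, h, dif_pos hb]
  exact (hsur b hb).choose_spec

lemma exists_code (f : ℕ → Vec k) :
    ∃ (c : ℕ → ℕ →₀ k) (g : ℕ × ℕ → Idx k), ∀ n, seqOf c g n = f n := by
  choose c g h using fun n => exists_code_one (f n)
  exact ⟨c, fun q => g q.1 q.2, fun n => h n⟩

lemma base_injective : Function.Injective (base : ℕ → Idx k) := by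
  intro a b h
  unfold base at h
  injection h with h1 h2
  exact Sum.inl_injective h1

lemma base_ne_lim (n : ℕ) (c : ℕ → ℕ →₀ k) (g : ℕ × ℕ → Idx k) : base n ≠ lim c g := by
  intro h
  unfold base lim at h
  injection h with h1 h2
  exact absurd h1 Sum.inl_ne_inr

lemma card_Idx [Finite k] : #(Idx k) ≤ 𝔠 := by
  refine WType.cardinalMk_le_of_le ?_
  have h1 : ∀ a : Shape k, (𝔠 : Cardinal.{0}) ^ #(Br k a) ≤ 𝔠 := by
    intro a
    have h2 : #(Br k a) ≤ ℵ₀ := by
      cases a with
      | inl n =>
        have : #(Br k (Sum.inl n)) = 0 := Cardinal.mk_eq_zero Empty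
        rw [this]
        exact zero_le
      | inr c =>
        have : #(Br k (Sum.inr c)) = #(ℕ × ℕ) := rfl
        rw [this]
        exact Cardinal.mk_le_aleph0
    calc (𝔠 : Cardinal.{0}) ^ #(Br k a) ≤ 𝔠 ^ (ℵ₀ : Cardinal.{0}) :=
          Cardinal.power_le_power_left (Cardinal.continuum_ne_zero) h2
      _ = 𝔠 := Cardinal.continuum_power_aleph0
  have h3 : #(Shape k) ≤ 𝔠 := by
    have h4 : #(ℕ → ℕ →₀ k) ≤ 𝔠 := by
      have h5 : #(ℕ →₀ k) ≤ ℵ₀ := Cardinal.mk_le_aleph0
      calc #(ℕ → ℕ →₀ k) = #(ℕ →₀ k) ^ #ℕ := by simp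
        _ ≤ ℵ₀ ^ #ℕ := Cardinal.power_le_power_right h5
        _ = 𝔠 := by rw [Cardinal.mk_nat, Cardinal.aleph0_power_aleph0]
    calc #(Shape k) = #ℕ + #(ℕ → ℕ →₀ k) := by simp [Shape]
      _ ≤ 𝔠 + 𝔠 := add_le_add (by rw [Cardinal.mk_nat]; exact Cardinal.aleph0_le_continuum) h4
      _ = 𝔠 := Cardinal.continuum_add_self
  calc (Cardinal.sum fun a : Shape k => (𝔠 : Cardinal.{0}) ^ #(Br k a))
      ≤ Cardinal.sum (fun _ : Shape k => (𝔠 : Cardinal.{0})) := Cardinal.sum_le_sum _ _ h1
    _ = #(Shape k) * 𝔠 := by simp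
    _ ≤ 𝔠 * 𝔠 := mul_le_mul_left h3 _
    _ = 𝔠 := Cardinal.continuum_mul_self

lemma exists_code_bool [Finite k] : ∃ e : Idx k → ℕ → Bool, Function.Injective e := by
  have h : #(Idx k) ≤ #(ℕ → Bool) := by
    refine card_Idx.trans (le_of_eq ?_)
    simp
  obtain ⟨e⟩ := h
  exact ⟨e, e.injective⟩

/-- A choice of codes. -/
noncomputable def eCode [Finite k] : Idx k → ℕ → Bool := (exists_code_bool (k := k)).choose

lemma eCode_injective [Finite k] : Function.Injective (eCode (k := k)) :=
  (exists_code_bool (k := k)).choose_spec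

/-- The ultrafilter of a formal limit. -/
noncomputable def pU [Finite k] (b : Idx k) : Ultrafilter ℕ :=
  (exists_ultra (adSet (eCode b)) (adSet_infinite _)).choose

lemma mem_pU [Finite k] (b : Idx k) (U : Set ℕ)
    (h : ∃ K : ℕ, ∀ n ∈ adSet (eCode b), K ≤ n →
      ((Ib n : Set ℕ) \ U).ncard ≤ K * (n + 1).factorial) : U ∈ pU b :=
  (exists_ultra (adSet (eCode b)) (adSet_infinite _)).choose_spec U h

lemma compl_finite_mem_pU [Finite k] (b : Idx k) (S : Set ℕ) (hS : S.Finite) : Sᶜ ∈ pU b := by
  obtain ⟨K, hK⟩ := hS.bddAbove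
  refine mem_pU b _ ⟨K + 1, fun n _ hn => ?_⟩
  have : ((Ib n : Set ℕ) \ Sᶜ) = ∅ := by
    rw [Set.eq_empty_iff_forall_notMem]
    rintro m ⟨hm1, hm2⟩
    rw [Set.notMem_compl_iff] at hm2
    have h1 := hK hm2
    have h2 : n < m := by
      have h3 := (Finset.mem_Ico.mp (show m ∈ Finset.Ico _ _ from hm1)).1
      have h4 := Nat.self_le_factorial (n + 1)
      omega
    omega
  rw [this]
  simp

/-- A linear functional that takes the formal limits of linearly independent sequences to the
limits of its values along the ultrafilters. -/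
def IsChar [Finite k] (Φ : Vec k →ₗ[k] k) : Prop :=
  ∀ (c : ℕ → ℕ →₀ k) (g : ℕ × ℕ → Idx k), LinearIndependent k (seqOf c g) →
    {n | Φ (seqOf c g n) = Φ (Finsupp.single (lim c g) 1)} ∈ pU (lim c g)

open Classical in
/-- The extension of a function by limits. -/
noncomputable def extF [Finite k] (D : Set (Idx k)) (ψ : Idx k → k) : Idx k → k
  | WType.mk (.inl n) g => ψ (WType.mk (.inl n) g)
  | WType.mk (.inr c) g =>
    if (WType.mk (.inr c) g : Idx k) ∈ D then ψ (WType.mk (.inr c) g)
    else plim (pU (WType.mk (.inr c) g)) (fun n => (c n).sum fun i a => a * extF D ψ (g (n, i)))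

lemma extF_base [Finite k] (D : Set (Idx k)) (ψ : Idx k → k) (n : ℕ) :
    extF D ψ (base n) = ψ (base n) := by
  unfold base
  rw [extF.eq_def]

lemma extF_lim_mem [Finite k] (D : Set (Idx k)) (ψ : Idx k → k) (c : ℕ → ℕ →₀ k)
    (g : ℕ × ℕ → Idx k) (h : lim c g ∈ D) : extF D ψ (lim c g) = ψ (lim c g) := by
  unfold lim at h ⊢
  rw [extF.eq_def]
  exact if_pos h

lemma extF_lim_not_mem [Finite k] (D : Set (Idx k)) (ψ : Idx k → k) (c : ℕ → ℕ →₀ k)
    (g : ℕ × ℕ → Idx k) (h : lim c g ∉ D) :
    extF D ψ (lim c g) =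
      plim (pU (lim c g)) (fun n => Finsupp.linearCombination k (extF D ψ) (seqOf c g n)) := by
  unfold lim at h ⊢
  rw [extF.eq_def]
  refine (if_neg h).trans ?_
  congr 1
  funext n
  unfold seqOf
  rw [Finsupp.linearCombination_mapDomain, Finsupp.linearCombination_apply]
  rfl

/-- A set of formal limits is closed if it contains all terms of its members. -/
def ClosedIdx (D : Set (Idx k)) : Prop := ∀ c g, lim c g ∈ D → ∀ q, g q ∈ D

/-- The subterms of a formal limit. -/
def Sub : Idx k → Set (Idx k)
  | WType.mk (.inl n) g => {WType.mk (.inl n) g}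
  | WType.mk (.inr c) g => insert (WType.mk (.inr c) g) (⋃ q : ℕ × ℕ, Sub (g q))

lemma mem_Sub_self (b : Idx k) : b ∈ Sub b := by
  rcases b with ⟨a, g⟩
  cases a with
  | inl n => rw [Sub]; exact rfl
  | inr c => rw [Sub]; exact Set.mem_insert _ _

lemma Sub_countable (b : Idx k) : (Sub b).Countable := by
  induction b with
  | mk a g ih =>
    cases a with
    | inl n => rw [Sub]; exact Set.countable_singleton _
    | inr c =>
      rw [Sub]
      have : Countable (Br k (Sum.inr c)) := inferInstanceAs (Countable (ℕ × ℕ))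
      exact (Set.countable_iUnion fun q => ih q).insert _

lemma Sub_closed (b : Idx k) : ClosedIdx (Sub b) := by
  induction b with
  | mk a g ih =>
    cases a with
    | inl n =>
      intro c' g' h q
      rw [Sub] at h
      unfold lim at h
      injection h with h1 h2
      exact absurd h1 Sum.inr_ne_inl
    | inr c =>
      intro c' g' h q
      rw [Sub] at h ⊢
      rcases h with h | h
      · unfold lim at h
        injection h with h1 h2
        have h1' : c' = c := Sum.inr_injective h1
        subst h1'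
        subst h2
        exact Or.inr (Set.mem_iUnion.mpr ⟨q, mem_Sub_self _⟩)
      · obtain ⟨q', hq'⟩ := Set.mem_iUnion.mp h
        exact Or.inr (Set.mem_iUnion.mpr ⟨q', ih q' c' g' hq' q⟩)

/-- If the function satisfies the limit conditions in a closed set then its extension gives a
functional which agrees with it on the closed set. -/
theorem isChar_extF [Finite k] (D : Set (Idx k)) (hD : ClosedIdx D) (ψ : Vec k →ₗ[k] k)
    (hψ : ∀ c g, lim c g ∈ D → LinearIndependent k (seqOf c g) →
      {n | ψ (seqOf c g n) = ψ (Finsupp.single (lim c g) 1)} ∈ pU (lim c g)) :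
    ∃ Φ : Vec k →ₗ[k] k, IsChar Φ ∧ (∀ v : Vec k, (↑v.support ⊆ D) → Φ v = ψ v) ∧
      ∀ n : ℕ, Φ (Finsupp.single (base n) 1) = ψ (Finsupp.single (base n) 1) := by
  classical
  let φ : Idx k → k := extF D (fun b => ψ (Finsupp.single b 1))
  let Φ : Vec k →ₗ[k] k := Finsupp.linearCombination k φ
  have hΦ1 : ∀ b, Φ (Finsupp.single b 1) = φ b := by
    intro b
    simp [Φ]
  have hφD : ∀ b ∈ D, φ b = ψ (Finsupp.single b 1) := by
    intro b hb
    rcases b with ⟨a, g⟩
    cases a with
    | inl n =>
      simp only [φ]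
      rw [extF.eq_def]
    | inr c => exact extF_lim_mem D _ c g hb
  have hagree : ∀ v : Vec k, (↑v.support ⊆ D) → Φ v = ψ v := by
    intro v hv
    have h1 : ψ v = ψ (v.sum fun b a => Finsupp.single b a) := by rw [Finsupp.sum_single]
    rw [h1, Finsupp.sum, map_sum]
    simp only [Φ, Finsupp.linearCombination_apply, Finsupp.sum]
    refine Finset.sum_congr rfl fun b hb => ?_
    rw [hφD b (hv hb)]
    have : (Finsupp.single b (v b) : Vec k) = v b • Finsupp.single b 1 := by simp
    rw [this, map_smul]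
  refine ⟨Φ, ?_, hagree, ?_⟩
  · intro c g hcg
    by_cases hD' : lim c g ∈ D
    · have h := hψ c g hD' hcg
      have hsub : ∀ n, (↑(seqOf c g n).support : Set (Idx k)) ⊆ D := by
        intro n b hb
        have hb' := Finsupp.mapDomain_support (Finset.mem_coe.mp hb)
        obtain ⟨i, _, rfl⟩ := Finset.mem_image.mp hb'
        exact hD c g hD' _
      have h2 : (↑(Finsupp.single (lim c g) (1 : k)).support : Set (Idx k)) ⊆ D := by
        intro b hb
        have hb' := Finsupp.support_single_subset (Finset.mem_coe.mp hb)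
        rw [Finset.mem_singleton.mp hb']
        exact hD'
      have h3 : {n | Φ (seqOf c g n) = Φ (Finsupp.single (lim c g) 1)} =
          {n | ψ (seqOf c g n) = ψ (Finsupp.single (lim c g) 1)} := by
        ext n
        simp only [Set.mem_ofPred_eq]
        rw [hagree _ (hsub n), hagree _ h2]
      rw [h3]
      exact h
    · have h : φ (lim c g) = plim (pU (lim c g)) (fun n => Φ (seqOf c g n)) :=
        extF_lim_not_mem D _ c g hD'
      have h3 := plim_spec (pU (lim c g)) (fun n => Φ (seqOf c g n))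
      rw [hΦ1, h]
      exact h3
  · intro n
    rw [hΦ1]
    exact extF_base D _ n

end

end Pool.Agent.L5helper51.CCG
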