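import Mathlib
import Pool.Agent.L5helper51.CCSpace

/-!
# Countably compact groups: the functionals separate points
-/

namespace Pool.Agent.L5helper51.CCG

open Set Filter Cardinal

section Removal

variable {k V P : Type*} [Field k] [AddCommGroup V] [Module k V]

lemma exists_finset_supported (N : Submodule k (P →₀ k)) (hN : N.FG) :
    ∃ S : Finset P, ∀ l ∈ N, l.support ⊆ S := by
  classical
  obtain ⟨T, hT⟩ := hN
  refine ⟨T.biUnion Finsupp.support, fun l hl => ?_⟩
  rw [← hT] at hl
  induction hl using Submodule.span_induction with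
  | mem x hx => exact Finset.subset_biUnion_of_mem Finsupp.support hx
  | zero => simp
  | add x y _ _ hx hy =>
    exact Finsupp.support_add.trans (Finset.union_subset hx hy)
  | smul a x _ hx => exact Finsupp.support_smul.trans hx

lemma exists_finset_of_finite (w : P → V) (hw : LinearIndependent k w) (E : Submodule k V)
    [Module.Finite k E] :
    ∃ S : Finset P, ∀ l : P →₀ k, Finsupp.linearCombination k w l ∈ E → l.support ⊆ S := by
  let N : Submodule k (P →₀ k) := Submodule.comap (Finsupp.linearCombination k w) E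
  have hN : N.FG := by
    have h1 : Module.Finite k N := by
      let T : N →ₗ[k] E := (Finsupp.linearCombination k w).restrict (fun l hl => hl)
      refine Module.Finite.of_injective T ?_
      intro a b hab
      have h2 : Finsupp.linearCombination k w a = Finsupp.linearCombination k w b :=
        congrArg Subtype.val hab
      exact Subtype.ext (hw h2)
    exact Module.Finite.iff_fg.mp h1
  obtain ⟨S, hS⟩ := exists_finset_supported N hN
  exact ⟨S, fun l hl => hS l hl⟩

theorem exists_removal {ι : Type*} [Countable ι] (U : ι → Set ℕ) (w : (Σ i, U i) → V)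
    (hw : LinearIndependent k w) (e : ι → V) (x : V) (hx : x ≠ 0) :
    ∃ F : ι → Set ℕ, (∀ i, (F i).Finite) ∧
      x ∉ Submodule.span k ((fun s : Σ i, U i => w s - e s.1) '' {s | (s.2 : ℕ) ∉ F s.1}) := by
  classical
  obtain ⟨r, hr⟩ := exists_injective_nat ι
  let E : ℕ → Submodule k V := fun j => Submodule.span k (insert x (e '' {i | r i ≤ j}))
  have hEfin : ∀ j, Module.Finite k (E j) := by
    intro j
    refine Module.Finite.span_of_finite k ?_
    refine Set.Finite.insert _ (Set.Finite.image _ ?_)
    exact Set.Finite.of_finite_image ((Set.finite_Iic j).subset (by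
      rintro _ ⟨i, hi, rfl⟩; exact hi)) hr.injOn
  choose S hS using fun j => @exists_finset_of_finite k V _ _ _ _ w hw (E j) (hEfin j)
  have hxfin : Module.Finite k (Submodule.span k {x}) :=
    Module.Finite.span_of_finite k (Set.finite_singleton x)
  obtain ⟨Sx, hSx⟩ := exists_finset_of_finite w hw (Submodule.span k {x})
  refine ⟨fun i => {n | ∃ h : n ∈ U i, (⟨i, n, h⟩ : Σ i, U i) ∈ S (r i) ∪ Sx}, ?_, ?_⟩
  · intro i
    refine ((S (r i) ∪ Sx).finite_toSet.image (fun s : Σ i, U i => (s.2 : ℕ))).subset ?_
    rintro n ⟨h, hs⟩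
    exact ⟨_, hs, rfl⟩
  · intro hmem
    rw [Finsupp.mem_span_image_iff_linearCombination] at hmem
    obtain ⟨l, hl, hlx⟩ := hmem
    have hnot : ∀ s ∈ l.support, s ∉ S (r s.1) ∪ Sx := by
      intro s hs hcon
      have h1 := (Finsupp.mem_supported k l).mp hl (Finset.mem_coe.mpr hs)
      exact h1 ⟨s.2.2, hcon⟩
    let C : ι →₀ k := Finsupp.mapDomain Sigma.fst l
    have hsum : Finsupp.linearCombination k w l = x + Finsupp.linearCombination k e C := by
      rw [← hlx, Finsupp.linearCombination_mapDomain, ← sub_eq_iff_eq_add]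
      rw [Finsupp.linearCombination_apply, Finsupp.linearCombination_apply,
        Finsupp.linearCombination_apply, ← Finsupp.sum_sub]
      refine Finsupp.sum_congr fun s _ => ?_
      rw [smul_sub]
      rfl
    by_cases hC : C = 0
    · rw [hC, map_zero, add_zero] at hsum
      have h1 : l.support ⊆ Sx := hSx l (by rw [hsum]; exact Submodule.mem_span_singleton_self x)
      have h2 : l = 0 := by
        rw [← Finsupp.support_eq_empty, Finset.eq_empty_iff_forall_notMem]
        intro s hs
        exact hnot s hs (Finset.mem_union_right _ (h1 hs))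
      rw [h2, map_zero] at hsum
      exact hx hsum.symm
    · have hne : C.support.Nonempty := Finsupp.support_nonempty_iff.mpr hC
      obtain ⟨i, hi, hmax⟩ := C.support.exists_max_image r hne
      have h1 : Finsupp.linearCombination k w l ∈ E (r i) := by
        rw [hsum]
        refine Submodule.add_mem _ (Submodule.subset_span (Set.mem_insert _ _)) ?_
        rw [Finsupp.linearCombination_apply]
        refine Submodule.sum_mem _ fun j hj => Submodule.smul_mem _ _ ?_
        exact Submodule.subset_span (Or.inr ⟨j, hmax j hj, rfl⟩)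
      have h2 := hS (r i) l h1
      have h3 : i ∈ l.support.image Sigma.fst := Finsupp.mapDomain_support hi
      obtain ⟨s, hs, rfl⟩ := Finset.mem_image.mp h3
      exact hnot s hs (Finset.mem_union_left _ (h2 hs))

end Removal

section

variable {k : Type} [Field k] [Finite k]

/-- The functionals that respect the limits separate the points. -/
theorem exists_isChar_ne (x : Vec k) (hx : x ≠ 0) :
    ∃ Φ : Vec k →ₗ[k] k, IsChar Φ ∧ Φ x ≠ 0 := by
  classical
  -- a countable closed set
  let D : Set (Idx k) := ⋃ b ∈ x.support, Sub b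
  have hDc : D.Countable := Set.Countable.biUnion (Finset.countable_toSet _) fun b _ => Sub_countable b
  have hDcl : ClosedIdx D := by
    intro c g h q
    obtain ⟨b, hb, hb'⟩ := Set.mem_iUnion₂.mp h
    exact Set.mem_iUnion₂.mpr ⟨b, hb, Sub_closed b c g hb' q⟩
  have hxD : (↑x.support : Set (Idx k)) ⊆ D := by
    intro b hb
    exact Set.mem_iUnion₂.mpr ⟨b, hb, mem_Sub_self b⟩
  -- the good formal limits in it
  let ι : Type := {q : (ℕ → ℕ →₀ k) × (ℕ × ℕ → Idx k) //
    lim q.1 q.2 ∈ D ∧ LinearIndependent k (seqOf q.1 q.2)}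
  let b : ι → Idx k := fun i => lim i.1.1 i.1.2
  have hb : Function.Injective b := by
    rintro ⟨⟨c, g⟩, h1⟩ ⟨⟨c', g'⟩, h2⟩ h
    simp only [b, lim] at h
    injection h with h3 h4
    have h3' : c = c' := Sum.inr_injective h3
    subst h3'
    subst h4
    rfl
  have hιc : Countable ι := by
    have : Countable D := hDc.to_subtype
    exact Function.Injective.countable (f := fun i : ι => (⟨b i, i.2.1⟩ : D)) (by
      intro i j h
      exact hb (congrArg Subtype.val h))
  obtain ⟨U, hU1, hU2⟩ := exists_select (k := k) (fun i : ι => seqOf i.1.1 i.1.2)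
    (fun i => i.2.2) (fun i => adSet (eCode (b i))) (by
      intro i j hij
      refine adSet_inter _ _ fun h => hij (hb (eCode_injective h)))
  obtain ⟨F, hF1, hF2⟩ := exists_removal U _ hU2 (fun i => Finsupp.single (b i) (1 : k)) x hx
  obtain ⟨ψ, hψ1, hψ2⟩ := Submodule.exists_dual_map_eq_bot_of_notMem hF2 inferInstance
  have hψ3 : ∀ (i : ι) (n : ℕ), n ∈ U i → n ∉ F i →
      ψ (seqOf i.1.1 i.1.2 n) = ψ (Finsupp.single (b i) 1) := by
    intro i n hn hnF
    have h1 : ψ (seqOf i.1.1 i.1.2 n - Finsupp.single (b i) 1) = 0 := by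
      have h2 : ψ (seqOf i.1.1 i.1.2 n - Finsupp.single (b i) 1) ∈
          Submodule.map ψ (Submodule.span k ((fun s : Σ i, U i =>
            seqOf s.1.1.1 s.1.1.2 s.2 - Finsupp.single (b s.1) (1 : k)) ''
              {s | (s.2 : ℕ) ∉ F s.1})) := by
        refine Submodule.mem_map_of_mem (Submodule.subset_span ?_)
        exact ⟨⟨i, n, hn⟩, hnF, rfl⟩
      rw [hψ2] at h2
      exact (Submodule.mem_bot k).mp h2
    rw [map_sub, sub_eq_zero] at h1
    exact h1
  obtain ⟨Φ, hΦ1, hΦ2, _⟩ := isChar_extF D hDcl ψ (by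
    intro c g hD hli
    let i : ι := ⟨(c, g), hD, hli⟩
    have h1 : U i ∈ pU (lim c g) := mem_pU _ _ (hU1 i)
    have h2 : (F i)ᶜ ∈ pU (lim c g) := compl_finite_mem_pU _ _ (hF1 i)
    refine Filter.mem_of_superset (Filter.inter_mem h1 h2) ?_
    rintro n ⟨hn1, hn2⟩
    exact hψ3 i n hn1 hn2)
  refine ⟨Φ, hΦ1, ?_⟩
  rw [hΦ2 x hxD]
  exact hψ1

/-- The values at the initial basis vectors can be prescribed. -/
theorem exists_isChar_base (φ : ℕ → k) :
    ∃ Φ : Vec k →ₗ[k] k, IsChar Φ ∧ ∀ n : ℕ, Φ (Finsupp.single (base n) 1) = φ n := by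
  classical
  let ψ : Vec k →ₗ[k] k := Finsupp.linearCombination k
    (fun b => if h : ∃ n, base n = b then φ h.choose else 0)
  obtain ⟨Φ, hΦ1, _, hΦ3⟩ := isChar_extF (∅ : Set (Idx k)) (fun c g h => absurd h (by simp)) ψ
    (fun c g h => absurd h (by simp))
  refine ⟨Φ, hΦ1, fun n => ?_⟩
  rw [hΦ3 n]
  have hex : ∃ m, (base m : Idx k) = base n := ⟨n, rfl⟩
  have h1 : hex.choose = n := base_injective hex.choose_spec
  simp only [ψ, Finsupp.linearCombination_single, one_smul]
  rw [dif_pos hex, h1]

end

end Pool.Agent.L5helper51.CCG
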