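import Mathlib
import Pool.Agent.L5helper51.CCSep

/-!
# Countably compact groups: the group
-/

namespace Pool.Agent.L5helper51.CCG

open Set Filter Topology

section

variable {k : Type} [Field k] [Finite k]

/-- The subgroup of all vectors whose coefficients at the formal limits are in `k₀`. -/
def Hgrp (k₀ : AddSubgroup k) : AddSubgroup (Vec k) where
  carrier := {v | ∀ c g, v (lim c g) ∈ k₀}
  zero_mem' := fun c g => by
    rw [Finsupp.zero_apply]
    exact k₀.zero_mem
  add_mem' := fun {a b} ha hb c g => by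
    rw [Finsupp.add_apply]
    exact k₀.add_mem (ha c g) (hb c g)
  neg_mem' := fun {a} ha c g => by
    rw [Finsupp.neg_apply]
    exact k₀.neg_mem (ha c g)

/-- The functionals. -/
abbrev Chars (k : Type) [Field k] [Finite k] : Type := {Φ : Vec k →ₗ[k] k // IsChar Φ}

/-- The evaluation map. -/
noncomputable def ev (k₀ : AddSubgroup k) : Hgrp k₀ →+ (Chars k → k) where
  toFun v Φ := Φ.1 v
  map_zero' := by
    funext Φ
    simp
  map_add' a b := by
    funext Φ
    simp

/-- The topology of pointwise convergence on the functionals. -/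
@[instance_reducible]
noncomputable def topH (k₀ : AddSubgroup k) : TopologicalSpace (Hgrp k₀) :=
  TopologicalSpace.induced (ev k₀) (@Pi.topologicalSpace (Chars k) (fun _ => k) fun _ => ⊥)

lemma isTopologicalAddGroup_topH (k₀ : AddSubgroup k) :
    @IsTopologicalAddGroup (Hgrp k₀) (topH k₀) _ := by
  let _ : TopologicalSpace k := ⊥
  have : DiscreteTopology k := ⟨rfl⟩
  have : IsTopologicalAddGroup k := inferInstance
  exact topologicalAddGroup_induced (ev k₀)

lemma ev_injective (k₀ : AddSubgroup k) : Function.Injective (ev k₀) := by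
  intro a b hab
  by_contra hne
  have h1 : (a : Vec k) - b ≠ 0 := fun h => hne (Subtype.ext (sub_eq_zero.mp h))
  obtain ⟨Φ, hΦ, hΦ2⟩ := exists_isChar_ne _ h1
  apply hΦ2
  rw [map_sub, sub_eq_zero]
  exact congrFun hab ⟨Φ, hΦ⟩

lemma t35_topH (k₀ : AddSubgroup k) : @T35Space (Hgrp k₀) (topH k₀) := by
  let _ : TopologicalSpace k := ⊥
  have : DiscreteTopology k := ⟨rfl⟩
  let _ := topH k₀
  have hemb : IsEmbedding (ev k₀) := ⟨⟨rfl⟩, ev_injective k₀⟩
  exact hemb.t35Space

lemma finite_span_of_finite (V : Type*) [AddCommGroup V] [Module k V] (s : Set V)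
    (hs : s.Finite) : (Submodule.span k s : Set V).Finite := by
  have : Module.Finite k (Submodule.span k s) := Module.Finite.span_of_finite k hs
  have h2 : Finite (Submodule.span k s) := Module.finite_of_finite k
  exact Set.toFinite _

/-- A sequence with finite fibres has a linearly independent subsequence. -/
lemma exists_subseq {V : Type*} [AddCommGroup V] [Module k V] (x : ℕ → V)
    (hx : ∀ a, {n | x n = a}.Finite) :
    ∃ s : ℕ → ℕ, StrictMono s ∧ LinearIndependent k (x ∘ s) := by
  classical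
  have hinf : (Inc k x).Infinite := by
    intro hfin
    obtain ⟨N, hN⟩ := hfin.bddAbove
    have h1 : ∀ m, x m ∈ Wsp k x (N + 1) := by
      intro m
      induction m using Nat.strong_induction_on with
      | _ m ih =>
        by_cases hm : m < N + 1
        · exact Submodule.subset_span ⟨m, hm, rfl⟩
        · have h2 : m ∉ Inc k x := fun h => by
            have := hN h
            omega
          have h3 : x m ∈ Wsp k x m := by
            by_contra h
            exact h2 h
          have h4 : Wsp k x m ≤ Wsp k x (N + 1) := by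
            refine Submodule.span_le.mpr ?_
            rintro _ ⟨j, hj, rfl⟩
            exact ih j hj
          exact h4 h3
    have h2 : (Wsp k x (N + 1) : Set V).Finite :=
      finite_span_of_finite V _ ((Set.finite_Iio _).image x)
    have h3 : (Set.univ : Set ℕ) ⊆ ⋃ a ∈ (Wsp k x (N + 1) : Set V), {n | x n = a} := by
      intro n _
      exact Set.mem_biUnion (h1 n) rfl
    exact Set.infinite_univ ((Set.Finite.biUnion h2 fun a _ => hx a).subset h3)
  have hinf' : Infinite (Inc k x) := hinf.to_subtype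
  let s := Nat.orderEmbeddingOfSet (Inc k x)
  refine ⟨s, s.strictMono, ?_⟩
  have hmem : ∀ n, s n ∈ Inc k x := by
    intro n
    have h := Nat.orderEmbeddingOfSet_range (Inc k x)
    have h2 : s n ∈ Set.range (Nat.orderEmbeddingOfSet (Inc k x)) := Set.mem_range_self n
    rwa [h] at h2
  exact (linearIndepOn_Inc (k := k) x).comp (fun n => (⟨s n, hmem n⟩ : Inc k x))
    (fun a b h => s.injective (congrArg Subtype.val h))

lemma countablyCompact_topH (k₀ : AddSubgroup k) (h1 : (1 : k) ∈ k₀) :
    @CountablyCompactSpace (Hgrp k₀) (topH k₀) := by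
  classical
  let _ := topH k₀
  refine ⟨isCountablyCompact_iff_seq_clusterPt.mpr fun x _ => ?_⟩
  by_cases hfib : ∀ a, {n | x n = a}.Finite
  · obtain ⟨s, hs, hli⟩ := exists_subseq (k := k) (fun n => (x n : Vec k)) (fun a => by
      by_cases ha : ∃ n, (x n : Vec k) = a
      · obtain ⟨n, rfl⟩ := ha
        refine (hfib (x n)).subset fun m hm => Subtype.ext hm
      · refine Set.finite_empty.subset fun m hm => ha ⟨m, hm⟩)
    obtain ⟨c, g, hcg⟩ := exists_code (fun n => (x (s n) : Vec k))
    have hseq : seqOf c g = (fun n => (x n : Vec k)) ∘ s := funext hcg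
    have hli2 : LinearIndependent k (seqOf c g) := by rw [hseq]; exact hli
    have hmem : (Finsupp.single (lim c g) (1 : k)) ∈ Hgrp k₀ := by
      intro c' g'
      rw [Finsupp.single_apply]
      split_ifs
      · exact h1
      · exact k₀.zero_mem
    refine ⟨⟨Finsupp.single (lim c g) 1, hmem⟩, Set.mem_univ _, ?_⟩
    have htend : Tendsto (fun n => x (s n)) (pU (lim c g) : Filter ℕ)
        (𝓝 (⟨Finsupp.single (lim c g) 1, hmem⟩ : Hgrp k₀)) := by
      let _ : TopologicalSpace k := ⊥
      have : DiscreteTopology k := ⟨rfl⟩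
      have hind : IsInducing (ev k₀) := ⟨rfl⟩
      rw [hind.tendsto_nhds_iff, tendsto_pi_nhds]
      intro Φ
      rw [nhds_discrete, tendsto_pure]
      have h2 := Φ.2 c g hli2
      filter_upwards [h2] with n hn
      rw [hcg n] at hn
      exact hn
    rw [mapClusterPt_iff_frequently]
    intro W hW
    rw [frequently_atTop]
    intro N
    have h2 : {n | x (s n) ∈ W} ∈ (pU (lim c g) : Filter ℕ) := htend hW
    have h3 : (Set.Iio N)ᶜ ∈ (pU (lim c g) : Filter ℕ) := compl_finite_mem_pU _ _ (Set.finite_Iio N)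
    obtain ⟨n, hn1, hn2⟩ := Ultrafilter.nonempty_of_mem (Filter.inter_mem h2 h3)
    refine ⟨s n, ?_, hn1⟩
    have h4 : N ≤ n := by
      rw [Set.mem_compl_iff, Set.mem_Iio, not_lt] at hn2
      exact hn2
    exact h4.trans hs.le_apply
  · push Not at hfib
    obtain ⟨a, ha⟩ := hfib
    refine ⟨a, Set.mem_univ _, ?_⟩
    rw [mapClusterPt_iff_frequently]
    intro W hW
    rw [frequently_atTop]
    intro N
    obtain ⟨n, hn, hNn⟩ := Set.Infinite.exists_gt ha N
    refine ⟨n, hNn.le, ?_⟩
    rw [show x n = a from hn]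
    exact mem_of_mem_nhds hW

lemma not_countablyCompact_prod (k₀ : AddSubgroup k) (ω : k)
    (hω : ∀ c ∈ k₀, ω * c ∈ k₀ → c = 0) :
    ¬ @CountablyCompactSpace (Hgrp k₀ × Hgrp k₀)
      (@instTopologicalSpaceProd _ _ (topH k₀) (topH k₀)) := by
  classical
  let _ := topH k₀
  intro hcc
  have hbase : ∀ (n : ℕ) (a : k), (Finsupp.single (base n) a : Vec k) ∈ Hgrp k₀ := by
    intro n a c g
    rw [Finsupp.single_apply, if_neg (base_ne_lim n c g)]
    exact k₀.zero_mem
  let z : ℕ → Hgrp k₀ × Hgrp k₀ := fun n =>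
    (⟨Finsupp.single (base n) 1, hbase n 1⟩, ⟨Finsupp.single (base n) ω, hbase n ω⟩)
  obtain ⟨⟨x, y⟩, -, hxy⟩ := (isCountablyCompact_iff_seq_clusterPt.mp
    hcc.isCountablyCompact_univ) z (Filter.Eventually.of_forall fun n => Set.mem_univ _)
  have hfreq : ∀ Φ : Chars k, ∃ᶠ n in atTop,
      Φ.1 (Finsupp.single (base n) 1) = Φ.1 x ∧ Φ.1 (Finsupp.single (base n) ω) = Φ.1 y := by
    intro Φ
    let _ : TopologicalSpace k := ⊥
    have : DiscreteTopology k := ⟨rfl⟩
    have hcont : Continuous (fun v : Hgrp k₀ => Φ.1 v) := by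
      have hind : IsInducing (ev k₀) := ⟨rfl⟩
      exact (continuous_apply Φ).comp hind.continuous
    rw [mapClusterPt_iff_frequently] at hxy
    have hopen : IsOpen {q : Hgrp k₀ × Hgrp k₀ | Φ.1 q.1 = Φ.1 x ∧ Φ.1 q.2 = Φ.1 y} := by
      have e1 : IsOpen {q : Hgrp k₀ × Hgrp k₀ | Φ.1 q.1 = Φ.1 x} :=
        (isOpen_discrete {Φ.1 (x : Vec k)}).preimage (hcont.comp continuous_fst)
      have e2 : IsOpen {q : Hgrp k₀ × Hgrp k₀ | Φ.1 q.2 = Φ.1 y} :=
        (isOpen_discrete {Φ.1 (y : Vec k)}).preimage (hcont.comp continuous_snd)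
      exact e1.inter e2
    exact hxy _ (hopen.mem_nhds ⟨rfl, rfl⟩)
  have hyx : (y : Vec k) = ω • (x : Vec k) := by
    by_contra hne
    have h1 : (y : Vec k) - ω • (x : Vec k) ≠ 0 := sub_ne_zero.mpr hne
    obtain ⟨Φ, hΦ, hΦ2⟩ := exists_isChar_ne _ h1
    obtain ⟨n, hn1, hn2⟩ := (hfreq ⟨Φ, hΦ⟩).exists
    apply hΦ2
    have h2 : (Finsupp.single (base n) ω : Vec k) = ω • Finsupp.single (base n) 1 := by simp
    rw [h2] at hn2
    simp only [map_smul] at hn2
    rw [map_sub, map_smul, sub_eq_zero, ← hn1, ← hn2]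
  have hlim : ∀ c g, (x : Vec k) (lim c g) = 0 := by
    intro c g
    refine hω _ (x.2 c g) ?_
    have h1 := y.2 c g
    rw [hyx, Finsupp.smul_apply, smul_eq_mul] at h1
    exact h1
  obtain ⟨Φ, hΦ, hΦ2⟩ := exists_isChar_base (k := k)
    (fun n => if (base n : Idx k) ∈ (x : Vec k).support then 0 else 1)
  have hx0 : Φ x = 0 := by
    have h1 : Φ (x : Vec k) = Φ ((x : Vec k).sum fun b a => Finsupp.single b a) := by
      rw [Finsupp.sum_single]
    rw [h1, Finsupp.sum, map_sum]
    refine Finset.sum_eq_zero fun b hb => ?_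
    have h2 : (Finsupp.single b ((x : Vec k) b) : Vec k) = (x : Vec k) b • Finsupp.single b 1 := by
      simp
    rw [h2, map_smul]
    have h3 : ∃ n, b = base n := by
      rcases b with ⟨a, g⟩
      cases a with
      | inl n =>
        refine ⟨n, ?_⟩
        unfold base
        congr 1
        funext q
        exact q.elim
      | inr c =>
        exfalso
        exact (Finsupp.mem_support_iff.mp hb) (hlim c g)
    obtain ⟨n, rfl⟩ := h3
    rw [hΦ2 n, if_pos hb, smul_zero]
  have hfr := hfreq ⟨Φ, hΦ⟩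
  have hev : ∀ᶠ n in (atTop : Filter ℕ), (base n : Idx k) ∉ (x : Vec k).support := by
    have hfin : {n : ℕ | (base n : Idx k) ∈ (x : Vec k).support}.Finite :=
      Set.Finite.preimage (base_injective.injOn) ((x : Vec k).support.finite_toSet)
    obtain ⟨N, hN⟩ := hfin.bddAbove
    filter_upwards [Filter.eventually_gt_atTop N] with n hn hmem
    exact absurd (hN hmem) (not_le.mpr hn)
  obtain ⟨n, ⟨hn1, -⟩, hn2⟩ := (hfr.and_eventually hev).exists
  simp only [] at hn1
  rw [hΦ2 n, if_neg hn2, hx0] at hn1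
  exact one_ne_zero hn1

end

end Pool.Agent.L5helper51.CCG
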