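import Pool.Agent.L5helper51.GPDs.Stub

/-!
# The chain of the descents from the first zero after `m`
-/

set_option autoImplicit false

open Finset MeasureTheory ProbabilityTheory Filter Topology

namespace Pool.Agent.L5helper32.GP

open Pool.Agent.L5helper32.GR (Root w pr sg Dep lev q)

variable {Ω : Type} [MeasurableSpace Ω] {μ : Measure Ω} [IsProbabilityMeasure μ]
  {T : ℕ × ℕ × ℕ → Ω → ℕ}

/-- The shape of `CK` along the zeros. -/
theorem ob_CK {p : ℕ} {P : ℕ → Set (ℕ × ℕ × ℕ → ℕ)} {f : ℕ × ℕ × ℕ → ℕ} {m : ℕ} :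
    ∀ (k : ℕ) (S : ℕ → Prop) (i : ℕ),
      (∀ j < k, GoodRun p (cur f) (orb p (cur f) m (i + j)) ∧
        (S j → f ∈ P (orb p (cur f) m (i + j + 1)))) →
      CK p P f k S (orb p (cur f) m i) := by
  intro k
  induction k with
  | zero => intro S i h; exact trivial
  | succ k ih =>
    intro S i h
    refine ⟨(h 0 (by omega)).1, fun h0 => (h 0 (by omega)).2 h0, ?_⟩
    exact ih (fun j => S (j + 1)) (i + 1) (fun j hj => by
      have := h (j + 1) (by omega)
      rw [show i + 1 + j = i + (j + 1) by omega]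
      exact this)

theorem ob_orb0 {p m z0 : ℕ} {f : ℕ × ℕ × ℕ → ℕ} (h : f ∈ FZ p m z0) :
    orb p (cur f) m 0 = z0 := by
  show sInf {z | m < z ∧ dseq p (cur f) z = 0} = z0
  apply le_antisymm
  · exact Nat.sInf_le ⟨h.1, h.2.1⟩
  · have hne : {z | m < z ∧ dseq p (cur f) z = 0}.Nonempty := ⟨z0, h.1, h.2.1⟩
    have hs := Nat.sInf_mem hne
    by_contra hlt
    exact h.2.2 _ hs.1 (by omega) hs.2

theorem ob_Pr_le_one (A : Set (ℕ × ℕ × ℕ → ℕ)) : Pr μ T A ≤ 1 := by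
  unfold Pr
  exact measureReal_le_one

open Classical in
/-- D7: from `chain_le`. -/
theorem orb_bound {p : ℕ} (hp : p.Prime) (h : Res μ T) {P : ℕ → Set (ℕ × ℕ × ℕ → ℕ)}
    (hP : ∀ n, ∃ R, Dep (bx {n} R) (P n)) {q' : ℝ} (hq : 0 ≤ q') {z₂ : ℕ} (hz₂ : 1 ≤ z₂)
    (hstep : ∀ z ≥ z₂, ∀ (n R : ℕ) (A : Set (ℕ × ℕ × ℕ → ℕ)),
      Dep (bx (range ((lev p z + 3) / 4)) R) A →
      Pr μ T (A ∩ {f | (GoodRun p (cur f) z ∧ nextZero p (cur f) z = n) ∧ f ∈ P n})
        ≤ q' * Pr μ T (A ∩ {f | GoodRun p (cur f) z ∧ nextZero p (cur f) z = n}))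
    (hlev : ∀ z ≥ z₂, ∀ n : ℕ, lev p z ≤ 4 * n → lev p z < (lev p n + 3) / 4 ∧ z < n)
    {m : ℕ} (hm : z₂ + 2 ≤ m) (S : Finset ℕ) :
    μ (⋂ k ∈ S, {ω | (∀ j ≤ k + 1, GoodRun p (res T ω) (orb p (res T ω) m j)) ∧
      (fun i => T i ω) ∈ P (orb p (res T ω) m (k + 2))}) ≤ ENNReal.ofReal q' ^ S.card := by
  have hp1 : 1 ≤ p := hp.one_lt.le
  rcases S.eq_empty_or_nonempty with rfl | hne
  · simpa using prob_le_one
  obtain ⟨K, hKS, hK⟩ : ∃ K ∈ S, ∀ k ∈ S, k ≤ K := ⟨S.max' hne, S.max'_mem hne, fun k hk => S.le_max' k hk⟩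
  have hcount : #{j ∈ range (K + 1) | j ∈ S} = S.card := by
    congr 1
    ext j
    simp only [mem_filter, mem_range]
    constructor
    · exact fun hj => hj.2
    · exact fun hj => ⟨Nat.lt_succ_of_le (hK j hj), hj⟩
  set E : Set (ℕ × ℕ × ℕ → ℕ) := {f | ∀ k ∈ S,
    (∀ j ≤ k + 1, GoodRun p (cur f) (orb p (cur f) m j)) ∧ f ∈ P (orb p (cur f) m (k + 2))} with hE
  set A : ℕ → ℕ → Set (ℕ × ℕ × ℕ → ℕ) := fun z0 z1 =>
    FZ p m z0 ∩ {f | GoodRun p (cur f) z0 ∧ nextZero p (cur f) z0 = z1} with hA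
  have hset : (⋂ k ∈ S, {ω | (∀ j ≤ k + 1, GoodRun p (res T ω) (orb p (res T ω) m j)) ∧
      (fun i => T i ω) ∈ P (orb p (res T ω) m (k + 2))}) = {ω | (fun i => T i ω) ∈ E} := by
    ext ω
    simp only [Set.mem_iInter, Set.mem_ofPred_eq, hE]
    rfl
  -- first split
  have h1 : Pr μ T E ≤ ∑ z0 ∈ Ioc m (lev p m), Pr μ T (E ∩ FZ p m z0) := by
    apply ag_Pr_biUnion_le
    intro f hf
    obtain ⟨z, hz, hfz⟩ := exists_FZ hp1 (by omega : 2 ≤ m) f
    exact ⟨z, hz, hf, hfz⟩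
  -- second split
  have h2 : ∀ z0 ∈ Ioc m (lev p m), Pr μ T (E ∩ FZ p m z0) ≤
      ∑ z1 ∈ range (lev p z0 + 1), Pr μ T (E ∩ A z0 z1) := by
    intro z0 hz0
    rw [mem_Ioc] at hz0
    apply ag_Pr_biUnion_le
    intro f hf
    refine ⟨nextZero p (cur f) z0, ?_, hf.1, hf.2, ?_, rfl⟩
    · have := nextZero_le hp1 (cur f) (by omega : 1 ≤ z0)
      simp only [mem_range]; omega
    · have h3 := (hf.1 K hKS).1 0 (by omega)
      rwa [ob_orb0 hf.2] at h3
  -- one piece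
  have h3 : ∀ z0 ∈ Ioc m (lev p m), ∀ z1 ∈ range (lev p z0 + 1),
      Pr μ T (E ∩ A z0 z1) ≤ q' ^ S.card * Pr μ T (A z0 z1) := by
    intro z0 hz0 z1 _
    rw [mem_Ioc] at hz0
    rcases lt_or_ge (4 * z1) (lev p z0) with hlt | hge
    · have he : E ∩ A z0 z1 = ∅ := by
        ext f
        simp only [hA, Set.mem_inter_iff, Set.mem_ofPred_eq, Set.mem_empty_iff_false, iff_false]
        rintro ⟨_, _, hg, hnz⟩
        have := hg.1
        omega
      have h0 : Pr μ T (∅ : Set (ℕ × ℕ × ℕ → ℕ)) = 0 := by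
        unfold Pr; simp
      rw [he, h0]
      exact mul_nonneg (pow_nonneg hq _) ag_Pr_nonneg
    · have hl := hlev z0 (by omega) z1 hge
      have hll : lev p (z0 - 1) ≤ lev p z0 := by
        unfold lev
        have : (z0 - 1 + 1) ^ p ≤ (z0 + 1) ^ p := Nat.pow_le_pow_left (by omega) p
        omega
      have hdep : Dep (bx (range ((lev p z1 + 3) / 4)) (lev p z0 + 3)) (A z0 z1) := by
        apply ag_dep_inter (dep_FZ hp1 m z0) (dep_goodrun_eq hp1 (by omega : 1 ≤ z0) z1)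
        · intro i hi
          simp only [bx, mem_product, mem_range] at hi ⊢
          omega
        · intro i hi
          simp only [bx, mem_product, mem_range, mem_Icc] at hi ⊢
          omega
      have h4 := chain_le hp h hP hq hz₂ hstep hlev (K + 1) (fun j => j ∈ S) z1 (by omega)
        (lev p z0 + 3) (A z0 z1) hdep
      have hcc : ∀ (inst : DecidablePred fun j => j ∈ S),
          (@Finset.filter ℕ (fun j => j ∈ S) inst (range (K + 1))).card = S.card := by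
        intro inst
        convert hcount
      have h4' : Pr μ T {f | f ∈ A z0 z1 ∧ CK p P f (K + 1) (fun j => j ∈ S) z1} ≤
          q' ^ S.card * Pr μ T (A z0 z1) := by
        refine h4.trans (le_of_eq ?_)
        exact congrArg (fun t => q' ^ t * Pr μ T (A z0 z1)) (hcc _)
      refine le_trans (ag_Pr_mono ?_) h4'
      intro f hf
      refine ⟨hf.2, ?_⟩
      have e1 : orb p (cur f) m 1 = z1 := by
        show nextZero p (cur f) (orb p (cur f) m 0) = z1
        rw [ob_orb0 hf.2.1]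
        exact hf.2.2.2
      have h5 := ob_CK (p := p) (P := P) (f := f) (m := m) (K + 1) (fun j => j ∈ S) 1 (by
        intro j hj
        refine ⟨(hf.1 K hKS).1 (1 + j) (by omega), fun hjS => ?_⟩
        have := (hf.1 j hjS).2
        rwa [show j + 2 = 1 + j + 1 by omega] at this)
      rwa [e1] at h5
  have h4 : ∀ z0 ∈ Ioc m (lev p m), ∑ z1 ∈ range (lev p z0 + 1), Pr μ T (A z0 z1) ≤
      Pr μ T (FZ p m z0) := by
    intro z0 hz0
    rw [mem_Ioc] at hz0
    apply ag_Pr_sum_le h.meas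
    · intro z1 _
      exact (dep_measurable (dep_FZ hp1 m z0)).inter
        (dep_measurable (dep_goodrun_eq hp1 (by omega : 1 ≤ z0) z1))
    · intro n n' f hf hf'
      have e1 : nextZero p (cur f) z0 = n := hf.2.2
      have e2 : nextZero p (cur f) z0 = n' := hf'.2.2
      omega
    · intro n _ f hf
      exact hf.1
  have h5 : ∑ z0 ∈ Ioc m (lev p m), Pr μ T (FZ p m z0) ≤ Pr μ T (Set.univ) := by
    apply ag_Pr_sum_le h.meas
    · intro z _
      exact dep_measurable (dep_FZ hp1 m z)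
    · intro z z' f hf hf'
      exact FZ_unique hf hf'
    · intro z _ f _
      exact Set.mem_univ _
  have h6 : Pr μ T E ≤ q' ^ S.card := by
    calc Pr μ T E ≤ ∑ z0 ∈ Ioc m (lev p m), Pr μ T (E ∩ FZ p m z0) := h1
      _ ≤ ∑ z0 ∈ Ioc m (lev p m), ∑ z1 ∈ range (lev p z0 + 1), Pr μ T (E ∩ A z0 z1) :=
          Finset.sum_le_sum h2
      _ ≤ ∑ z0 ∈ Ioc m (lev p m), ∑ z1 ∈ range (lev p z0 + 1), q' ^ S.card * Pr μ T (A z0 z1) :=
          Finset.sum_le_sum fun z0 hz0 => Finset.sum_le_sum (h3 z0 hz0)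
      _ = q' ^ S.card * ∑ z0 ∈ Ioc m (lev p m), ∑ z1 ∈ range (lev p z0 + 1), Pr μ T (A z0 z1) := by
          rw [Finset.mul_sum]
          exact Finset.sum_congr rfl fun z0 _ => by rw [Finset.mul_sum]
      _ ≤ q' ^ S.card * 1 := by
          apply mul_le_mul_of_nonneg_left _ (pow_nonneg hq _)
          exact (Finset.sum_le_sum h4).trans (h5.trans (ob_Pr_le_one _))
      _ = q' ^ S.card := mul_one _
  rw [hset, ← ENNReal.ofReal_pow hq]
  rw [← ENNReal.ofReal_toReal (measure_ne_top μ _)]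
  exact ENNReal.ofReal_le_ofReal h6

end Pool.Agent.L5helper32.GP
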