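import Pool.Agent.L5helper66.TD.Defs

set_option autoImplicit false

open scoped TensorProduct RealInnerProductSpace

namespace Pool.Agent.L5helper51.TD

open Pool.Agent.L5helper66.TD

theorem hom_id {d : ℤ} {R : Type} [CommRing R] (r : R) (hr : r * r = (d : R)) (p q n m : ℕ)
    (h : ((⟨q, 2⟩ : ℤ√d) ^ n * ⟨p, -1⟩ ^ m = ⟨q, -2⟩ ^ n * ⟨p, 1⟩ ^ m)) :
    ((q : R) + 2 * r) ^ n * ((p : R) - r) ^ m = ((q : R) - 2 * r) ^ n * ((p : R) + r) ^ m := by
  have := congrArg (Zsqrtd.lift ⟨r, hr⟩) h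
  simp only [map_mul, map_pow, Zsqrtd.lift_apply_apply] at this
  push_cast at this
  have e1 : (q : R) + 2 * r = (q : R) + 2 * r := rfl
  rw [show ((q : R) - 2 * r) = (q : R) + -2 * r by ring, show ((p : R) - r) = (p : R) + -1 * r by ring]
  simpa using this

theorem norm_one_add {ℓ : ℕ} [Fact ℓ.Prime] {x y : ℤ_[ℓ]} (hx : ‖x‖ = 1) (hy : ‖y‖ < 1) :
    ‖x + y‖ = 1 := by
  rw [PadicInt.norm_add_eq_max_of_ne (by rw [hx]; exact hy.ne'), hx]
  exact max_eq_left hy.le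

/-- job 9: the primes dividing `2 p + q` and `2 p - q` -/
theorem com_pyr_pow (p q : ℕ) (hp : 0 < p) (hq : 0 < q) (hpq : q ^ 2 < 3 * p ^ 2)
    (hc : Nat.Coprime p q) (M : ℕ) (hM : 0 < M)
    (h : ((⟨q, 2⟩ : ℤ√((q : ℤ) ^ 2 - 3 * (p : ℤ) ^ 2)) ^ (q * M) * ⟨p, -1⟩ ^ (2 * p * M) =
        ⟨q, -2⟩ ^ (q * M) * ⟨p, 1⟩ ^ (2 * p * M))) (ℓ : ℕ) (hℓ : ℓ.Prime) (h2 : ℓ ≠ 2) :
    ¬ ℓ ∣ 2 * p + q ∧ ¬ ℓ ∣ 2 * p - q ∧ ¬ (3 ∣ p ∧ ¬ 3 ∣ q) := by
  have := Fact.mk hℓ
  have hq2p : q < 2 * p := by nlinarith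
  have h2l : ¬ ℓ ∣ 2 := by
    intro hd
    exact h2 ((Nat.prime_dvd_prime_iff_eq hℓ Nat.prime_two).1 hd)
  have hpl : ∀ x : ℕ, ℓ ∣ x → (ℓ ∣ p → ℓ ∣ q) → ¬ ℓ ∣ p := by
    intro x _ hx hd
    have := Nat.dvd_gcd hd (hx hd)
    rw [hc] at this
    exact hℓ.one_lt.ne' (Nat.dvd_one.1 this)
  have ha : ¬ ℓ ∣ 2 * p + q := by
    intro hd
    have e : (2 * (p : ZMod ℓ) + q) = 0 := by
      have := (ZMod.natCast_eq_zero_iff (2 * p + q) ℓ).2 hd
      push_cast at this
      exact this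
    have hnp : ¬ ℓ ∣ p := hpl _ hd fun hd' => (Nat.dvd_add_right (hd'.mul_left 2)).1 hd
    have hp0 : (p : ZMod ℓ) ≠ 0 := fun hz => hnp ((ZMod.natCast_eq_zero_iff p ℓ).1 hz)
    have h20 : (2 : ZMod ℓ) ≠ 0 := fun hz => h2l ((ZMod.natCast_eq_zero_iff 2 ℓ).1 (by exact_mod_cast hz))
    have k := hom_id (p : ZMod ℓ) (by push_cast; linear_combination (2 * (p : ZMod ℓ) - q) * e) p q _ _ h
    have hz : (q : ZMod ℓ) + 2 * p = 0 := by linear_combination e
    rw [hz, zero_pow (by positivity), zero_mul] at k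
    have h4 : ((q : ZMod ℓ) - 2 * p) ≠ 0 := by
      intro h0
      have : (2 : ZMod ℓ) * (2 * p) = 0 := by linear_combination hz - h0
      exact mul_ne_zero h20 (mul_ne_zero h20 hp0) this
    have h5 : (p : ZMod ℓ) + p ≠ 0 := by
      intro h0
      exact mul_ne_zero h20 hp0 (by linear_combination h0)
    exact absurd k.symm (mul_ne_zero (pow_ne_zero _ h4) (pow_ne_zero _ h5))
  refine ⟨ha, ?_, ?_⟩
  · intro hd
    have hnp : ¬ ℓ ∣ p := by
      apply hpl _ hd
      intro hd'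
      have e : q = 2 * p - (2 * p - q) := by omega
      rw [e]
      exact Nat.dvd_sub (hd'.mul_left 2) hd
    -- the root
    set N : ℕ := 2 * p - q with hN
    have hNpos : 0 < N := by omega
    have hNq : (N : ℤ_[ℓ]) = 2 * p - q := by
      rw [hN, Nat.cast_sub (by omega)]; push_cast; ring
    have n2 : ‖(2 : ℤ_[ℓ])‖ = 1 := by
      have := (PadicInt.norm_natCast_eq_one_iff (p := ℓ) (n := 2)).2 ((Nat.coprime_primes hℓ Nat.prime_two).2 h2)
      simpa using this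
    have np : ‖(p : ℤ_[ℓ])‖ = 1 :=
      (PadicInt.norm_natCast_eq_one_iff (p := ℓ) (n := p)).2 ((Nat.Prime.coprime_iff_not_dvd hℓ).2 hnp)
    have npq : ‖((2 * p + q : ℕ) : ℤ_[ℓ])‖ = 1 :=
      (PadicInt.norm_natCast_eq_one_iff (p := ℓ)).2 ((Nat.Prime.coprime_iff_not_dvd hℓ).2 ha)
    have hN1 : ‖(N : ℤ_[ℓ])‖ < 1 := (PadicInt.norm_natCast_lt_one_iff (p := ℓ)).2 hd
    have hN0 : (N : ℤ_[ℓ]) ≠ 0 := by exact_mod_cast hNpos.ne'
    set F : Polynomial ℤ_[ℓ] := Polynomial.X ^ 2 - Polynomial.C ((q : ℤ_[ℓ]) ^ 2 - 3 * (p : ℤ_[ℓ]) ^ 2)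
      with hF
    have hFa : F.aeval (p : ℤ_[ℓ]) = (N : ℤ_[ℓ]) * ((2 * p + q : ℕ) : ℤ_[ℓ]) := by
      rw [hF, hNq]
      simp only [map_sub, map_pow, Polynomial.aeval_X, Polynomial.aeval_C, Algebra.algebraMap_self,
        RingHom.id_apply, map_mul]
      push_cast
      ring
    have hFd : F.derivative.aeval (p : ℤ_[ℓ]) = 2 * (p : ℤ_[ℓ]) := by
      rw [hF, Polynomial.derivative_sub, Polynomial.derivative_C, sub_zero,
        Polynomial.derivative_X_pow]
      simp only [map_mul, map_pow, Polynomial.aeval_X, Polynomial.aeval_C, Algebra.algebraMap_self,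
        RingHom.id_apply, Nat.cast_ofNat, Nat.add_one_sub_one, pow_one]
    have nd : ‖F.derivative.aeval (p : ℤ_[ℓ])‖ = 1 := by
      rw [hFd, norm_mul, n2, np, one_mul]
    obtain ⟨z, hz0, hz1, _⟩ := hensels_lemma (F := F) (a := (p : ℤ_[ℓ])) (by
      rw [nd, hFa, norm_mul, npq, mul_one]; simpa using hN1)
    rw [nd] at hz1
    have hzz : z * z = (q : ℤ_[ℓ]) ^ 2 - 3 * (p : ℤ_[ℓ]) ^ 2 := by
      rw [hF] at hz0
      simp only [map_sub, map_pow, Polynomial.aeval_X, Polynomial.aeval_C, Algebra.algebraMap_self,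
        RingHom.id_apply, map_mul] at hz0
      linear_combination hz0
    have k := hom_id z (by push_cast; exact hzz) p q _ _ h
    have e1 : ‖(p : ℤ_[ℓ]) + z‖ = 1 := by
      have : (p : ℤ_[ℓ]) + z = 2 * p + (z - p) := by ring
      rw [this]
      exact norm_one_add (by rw [norm_mul, n2, np, one_mul]) hz1
    have e2 : ‖(q : ℤ_[ℓ]) + 2 * z‖ = 1 := by
      have : (q : ℤ_[ℓ]) + 2 * z = (2 * (2 * p) + 2 * (z - p)) + (-(N : ℤ_[ℓ])) := by
        rw [hNq]; ring
      rw [this]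
      refine norm_one_add (norm_one_add ?_ ?_) (by rw [norm_neg]; exact hN1)
      · rw [norm_mul, norm_mul, n2, np]; norm_num
      · rw [norm_mul, n2, one_mul]; exact hz1
    have e3 : ‖(p : ℤ_[ℓ]) - z‖ = ‖(N : ℤ_[ℓ])‖ := by
      have : ((p : ℤ_[ℓ]) - z) * (p + z) = (N : ℤ_[ℓ]) * ((2 * p + q : ℕ) : ℤ_[ℓ]) := by
        rw [hNq]; push_cast; linear_combination -hzz
      have := congrArg norm this
      rw [norm_mul, norm_mul, e1, npq, mul_one, mul_one] at this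
      exact this
    have e4 : ‖(q : ℤ_[ℓ]) - 2 * z‖ = ‖(3 : ℤ_[ℓ])‖ * ‖(N : ℤ_[ℓ])‖ := by
      have : ((q : ℤ_[ℓ]) - 2 * z) * (q + 2 * z) = 3 * (N : ℤ_[ℓ]) * ((2 * p + q : ℕ) : ℤ_[ℓ]) := by
        rw [hNq]; push_cast; linear_combination -4 * hzz
      have := congrArg norm this
      rw [norm_mul, norm_mul, norm_mul, e2, npq, mul_one, mul_one] at this
      exact this
    have k2 := congrArg norm k
    simp only [norm_mul, norm_pow] at k2
    rw [e1, e2, e3, e4, one_pow, one_pow, one_mul, mul_one] at k2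
    obtain ⟨e, n', hn', hNe⟩ := Nat.exists_eq_pow_mul_and_not_dvd hNpos.ne' ℓ hℓ.one_lt.ne'
    have he1 : 1 ≤ e := by
      rcases Nat.eq_zero_or_pos e with h0 | h0
      · rw [h0, pow_zero, one_mul] at hNe
        rw [hNe] at hd
        exact absurd hd hn'
      · exact h0
    have hn1 : n' ≠ 0 := by
      rintro rfl
      exact hn' (dvd_zero _)
    have nN : ‖(N : ℤ_[ℓ])‖ = ((ℓ : ℝ)⁻¹) ^ e := by
      rw [hNe]
      push_cast
      rw [norm_mul, norm_pow, PadicInt.norm_p,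
        (PadicInt.norm_natCast_eq_one_iff (p := ℓ)).2 ((Nat.Prime.coprime_iff_not_dvd hℓ).2 hn'), mul_one]
    have hl0 : (0 : ℝ) < (ℓ : ℝ)⁻¹ := inv_pos.2 (by exact_mod_cast hℓ.pos)
    have hl1 : (ℓ : ℝ)⁻¹ < 1 := inv_lt_one_of_one_lt₀ (by exact_mod_cast hℓ.one_lt)
    by_cases h3 : ℓ = 3
    · subst h3
      have n3 : ‖(3 : ℤ_[3])‖ = ((3 : ℕ) : ℝ)⁻¹ := by
        have := PadicInt.norm_p (p := 3)
        simpa using this
      rw [n3, nN, ← pow_mul, ← pow_succ', ← pow_mul] at k2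
      have k3 := (pow_right_injective₀ hl0 hl1.ne) k2
      have k4 : 2 * p * e = q * (e + 1) := by
        have : M * (2 * p * e) = M * (q * (e + 1)) := by
          have k5 : e * (2 * p * M) = (e + 1) * (q * M) := k3
          nlinarith [k5]
        exact Nat.eq_of_mul_eq_mul_left hM this
      have k5 : p ∣ e + 1 := by
        apply hc.dvd_of_dvd_mul_left
        rw [← k4]
        exact ⟨2 * e, by ring⟩
      have k6 : p ≤ e + 1 := Nat.le_of_dvd (by omega) k5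
      have k7 : 3 ^ e ≤ N := by
        rw [hNe]; exact Nat.le_mul_of_pos_right _ (Nat.pos_of_ne_zero hn1)
      have k8 : 3 ^ e < 2 * (e + 1) := by omega
      have k9 : e = 1 := by
        by_contra hne
        have : 2 ≤ e := by omega
        have k10 : ∀ t : ℕ, 2 * (t + 2 + 1) ≤ 3 ^ (t + 2) := by
          intro t
          induction t with
          | zero => norm_num
          | succ t ih => rw [show t + 1 + 2 = (t + 2) + 1 by ring, pow_succ]; omega
        have := k10 (e - 2)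
        rw [show e - 2 + 2 = e by omega] at this
        omega
      rw [k9] at k4 k6 k7
      have k10 : p = q := by omega
      rw [← k10] at hc
      have : p = 1 := by simpa using hc
      omega
    · have n3 : ‖(3 : ℤ_[ℓ])‖ = 1 := by
        have := (PadicInt.norm_natCast_eq_one_iff (p := ℓ) (n := 3)).2 ((Nat.coprime_primes hℓ Nat.prime_three).2 h3)
        simpa using this
      rw [n3, one_mul, nN, ← pow_mul, ← pow_mul] at k2
      have k3 := (pow_right_injective₀ hl0 hl1.ne) k2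
      have k4 : 2 * p = q := by
        have : (e * M) * (2 * p) = (e * M) * q := by
          have k5 : e * (2 * p * M) = e * (q * M) := k3
          nlinarith [k5]
        exact Nat.eq_of_mul_eq_mul_left (by positivity) this
      omega
  · rintro ⟨hp3, hq3⟩
    have := Fact.mk Nat.prime_three
    have hp0 : (p : ZMod 3) = 0 := (ZMod.natCast_eq_zero_iff p 3).2 hp3
    have hq0 : (q : ZMod 3) ≠ 0 := fun hz => hq3 ((ZMod.natCast_eq_zero_iff q 3).1 hz)
    have h30 : (3 : ZMod 3) = 0 := by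
      have := (ZMod.natCast_eq_zero_iff 3 3).2 dvd_rfl
      exact_mod_cast this
    have k := hom_id (q : ZMod 3) (by push_cast; linear_combination (p : ZMod 3) ^ 2 * h30) p q _ _ h
    have hz : (q : ZMod 3) + 2 * q = 0 := by linear_combination (q : ZMod 3) * h30
    have hz2 : (q : ZMod 3) - 2 * q = -q := by ring
    rw [hz, hz2, hp0, zero_pow (by positivity), zero_mul, zero_add] at k
    exact absurd k.symm (mul_ne_zero (pow_ne_zero _ (neg_ne_zero.2 hq0)) (pow_ne_zero _ hq0))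

end Pool.Agent.L5helper51.TD
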